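import Pool.Agent.NH47.AZ.Weight

set_option autoImplicit false

universe u

namespace Pool.Agent.Results.MP_0f25e6_al.CharactersAndFaces

/-- `α * f` is nonzero for every nonzero square-summable `f`, where
`(α * f)(g) = ∑ α(k) f(k⁻¹ g)`. -/
def Regular {G : Type u} [Group G] (α : G →₀ ℂ) : Prop :=
  ∀ f : G → ℂ, Memℓp f 2 → f ≠ 0 → ∃ g : G, ∑ k ∈ α.support, α k * f (k⁻¹ * g) ≠ 0

/-- All square-summable `f` with `α * f = 0`. -/
def kernel {G : Type u} [Group G] (α : G →₀ ℂ) : Set (lp (fun _ : G => ℂ) 2) :=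
  {f | ∀ g : G, ∑ k ∈ α.support, α k * f (k⁻¹ * g) = 0}

open Classical in
/-- The von Neumann dimension of the kernel of left convolution by `α`: one minus the square of the
distance from the basis vector at the identity of `G` to the kernel (this is the squared length of
the projection of that vector to the kernel). -/
noncomputable def kerDim {G : Type u} [Group G] (α : G →₀ ℂ) : ℝ :=
  1 - Metric.infDist (lp.single 2 (1 : G) (1 : ℂ)) (kernel α) ^ 2

/-- Let `G` be any group and `α`, `β` elements of the complex group algebra; let `t` be an element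
of `G` and `P` a subgroup which contains `t⁻¹ s` for all `s` in the support of `α` (for example, `t`
is in the support and `P` is generated by these elements).

1. (Characters.) If `χ` is a homomorphism from `P` to the multiplicative group of complex numbers,
   not necessarily unitary, and `β(s) = χ(t⁻¹ s) α(s)` for all `s` in the support of `α` and
   `β(s) = 0` for the other `s`, then `α` and `β` have the same kernel dimension; in particular `β`
   is regular if and only if `α` is.
2. (Faces.) If `e` is a homomorphism from `P` to the additive group of real numbers, `m` is a lower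
   bound for the `e(t⁻¹ s)`, `s` in the support of `α`, and `β` is the part of `α` on the set of
   those `s` with `e(t⁻¹ s) = m`, then the kernel dimension of `α` is at most that of `β`; in
   particular `α` is regular if `β` is.
3. (Weights.) Let `α` be regular and let `w` be a positive function on `G` such that for every `s`
   in the support of `α` the quotient `w(t⁻¹ s x) / w(x)` does not depend on `x`. Then `α * h ≠ 0`
   for every nonzero function `h` on `G` with `∑ w(x)² |h(x)|² < ∞`.
4. (Half spaces.) Let `α` be regular and let `e` be a homomorphism from `G` to the integers. Then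
   `α * h ≠ 0` for every nonzero function `h` on `G` which vanishes on a half space `e(x) < c` and
   which is square-summable on each level `e(x) = n`, with sum of squares at most `C Rⁿ` for some
   `C` and `R` which do not depend on `n`. -/
theorem result {G : Type u} [Group G] (α : G →₀ ℂ) (t : G) (P : Subgroup G)
    (hP : ∀ s ∈ α.support, t⁻¹ * s ∈ P) :
    (∀ (χ : P →* ℂˣ) (β : G →₀ ℂ),
      (∀ s (hs : s ∈ α.support), β s = (χ ⟨t⁻¹ * s, hP s hs⟩ : ℂ) * α s) →
      (∀ s, s ∉ α.support → β s = 0) →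
      kerDim β = kerDim α ∧ (Regular β ↔ Regular α)) ∧
    (∀ (e : P →* Multiplicative ℝ) (m : ℝ) (β : G →₀ ℂ),
      (∀ s (hs : s ∈ α.support), m ≤ Multiplicative.toAdd (e ⟨t⁻¹ * s, hP s hs⟩)) →
      (∀ s (hs : s ∈ α.support), Multiplicative.toAdd (e ⟨t⁻¹ * s, hP s hs⟩) = m → β s = α s) →
      (∀ s (hs : s ∈ α.support), Multiplicative.toAdd (e ⟨t⁻¹ * s, hP s hs⟩) ≠ m → β s = 0) →
      (∀ s, s ∉ α.support → β s = 0) →
      kerDim α ≤ kerDim β ∧ (Regular β → Regular α)) ∧
    (Regular α → ∀ w : G → ℝ, (∀ x, 0 < w x) →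
      (∀ s ∈ α.support, ∃ c : ℝ, ∀ x, w (t⁻¹ * s * x) = c * w x) →
      ∀ h : G → ℂ, h ≠ 0 → Summable (fun x => (w x * ‖h x‖) ^ 2) →
      ∃ g : G, ∑ k ∈ α.support, α k * h (k⁻¹ * g) ≠ 0) ∧
    (Regular α → ∀ e : G →* Multiplicative ℤ, ∀ h : G → ℂ, h ≠ 0 →
      (∃ c : ℤ, ∀ x, Multiplicative.toAdd (e x) < c → h x = 0) →
      (∃ C R : ℝ, 0 < R ∧ ∀ (n : ℤ) (A : Finset G), (∀ x ∈ A, Multiplicative.toAdd (e x) = n) →
        ∑ x ∈ A, ‖h x‖ ^ 2 ≤ C * R ^ n) →
      ∃ g : G, ∑ k ∈ α.support, α k * h (k⁻¹ * g) ≠ 0) := by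
  classical
  have hk : ∀ β : G →₀ ℂ, kerDim β = NH47.AZ.kdim β := fun β => rfl
  have hr : ∀ β : G →₀ ℂ, Regular β ↔ NH47.AZ.kdim β ≤ 0 := fun β =>
    NH47.AZ.regular_iff_kdim β
  refine ⟨?_, ?_, ?_, ?_⟩
  · intro χ β h1 h2
    have h3 : NH47.AZ.kdim β = NH47.AZ.kdim α := by
      apply NH47.AZ.kdim_twist P t (fun x => if h : x ∈ P then (χ ⟨x, h⟩ : ℂ) else 1) _ _ α β hP
      · intro s
        by_cases hs : s ∈ α.support
        · rw [h1 s hs, dif_pos (hP s hs)]
        · rw [h2 s hs, Finsupp.notMem_support_iff.1 hs, mul_zero]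
      · intro x hx
        rw [dif_pos hx]
        exact Units.ne_zero _
      · intro x hx y hy
        rw [dif_pos hx, dif_pos hy, dif_pos (P.mul_mem hx hy), ← Units.val_mul, ← map_mul]
        rfl
    exact ⟨h3, by rw [hr, hr, h3]⟩
  · intro e m β h1 h2 h3 h4
    have h5 : NH47.AZ.kdim α ≤ NH47.AZ.kdim β := by
      by_cases hα : ∀ s, (∃ h : t⁻¹ * s ∈ P, Multiplicative.toAdd (e ⟨_, h⟩) = m) → β s = α s
      · apply NH47.AZ.kdim_face P t (fun x => Multiplicative.toAdd (e x)) _ α β m
          (fun s hs => ⟨hP s hs, h1 s hs⟩) hα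
        · intro s hs
          by_cases hs' : s ∈ α.support
          · exact h3 s hs' (fun h => hs ⟨hP s hs', h⟩)
          · exact h4 s hs'
        · intro x y
          rw [map_mul, toAdd_mul]
      · exfalso
        apply hα
        rintro s ⟨h, h6⟩
        by_cases hs' : s ∈ α.support
        · exact h2 s hs' h6
        · rw [h4 s hs', Finsupp.notMem_support_iff.1 hs']
    exact ⟨h5, fun h => (hr α).2 (h5.trans ((hr β).1 h))⟩
  · intro hα w hw hq h h0 hs
    exact NH47.AZ.weighted α ((hr α).1 hα) t w hw hq h h0 hs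
  · rintro hα e h h0 ⟨c, hc⟩ ⟨C, R, hR, hb⟩
    exact NH47.AZ.half α ((hr α).1 hα) (fun x => Multiplicative.toAdd (e x))
      (fun x y => by rw [map_mul, toAdd_mul]) h h0 c hc C R hR hb

end Pool.Agent.Results.MP_0f25e6_al.CharactersAndFaces
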