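import Pool.Agent.NH47.AZ.Loc

set_option autoImplicit false

universe u

namespace Pool.Agent.Results.MP_0f25e6_al.FiniteAbelianization

/-- `α * f` is nonzero for every nonzero square-summable `f`, where
`(α * f)(g) = ∑ α(k) f(k⁻¹ g)`. -/
def Regular {G : Type u} [Group G] (α : G →₀ ℂ) : Prop :=
  ∀ f : G → ℂ, Memℓp f 2 → f ≠ 0 → ∃ g : G, ∑ k ∈ α.support, α k * f (k⁻¹ * g) ≠ 0

/-- All square-summable `f` with `α * f = 0`. -/
def kernel {G : Type u} [Group G] (α : G →₀ ℂ) : Set (lp (fun _ : G => ℂ) 2) :=
  {f | ∀ g : G, ∑ k ∈ α.support, α k * f (k⁻¹ * g) = 0}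

open Classical in
/-- The von Neumann dimension of the kernel of left convolution by `α`: one minus the square of the
distance from the basis vector at the identity of `G` to the kernel (this is the squared length of
the projection of that vector to the kernel). -/
noncomputable def kerDim {G : Type u} [Group G] (α : G →₀ ℂ) : ℝ :=
  1 - Metric.infDist (lp.single 2 (1 : G) (1 : ℂ)) (kernel α) ^ 2

open Classical in
/-- The element which has the coefficients of `α` on the finite set `S` and coefficients zero
elsewhere. -/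
noncomputable def part {G : Type u} (α : G →₀ ℂ) (S : Finset G) : G →₀ ℂ :=
  α.filter (fun x => x ∈ S)

/-- The subgroup generated by the elements `t⁻¹ s` with `s` in `S`. -/
def quotients {G : Type u} [Group G] (S : Finset G) (t : G) : Subgroup G :=
  Subgroup.closure ((fun s => t⁻¹ * s) '' (S : Set G))

/-- The analytic zero divisor property: all nonzero elements of the complex group algebra are
regular. -/
def ZeroDivisorProperty (G : Type u) [Group G] : Prop := ∀ α : G →₀ ℂ, α ≠ 0 → Regular α

/-- `G` is torsion-free. -/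
def TorsionFree (G : Type u) [Group G] : Prop := ∀ g : G, ∀ n : ℕ, 0 < n → g ^ n = 1 → g = 1

/-- A group is locally indicable if every nontrivial finitely generated subgroup has a nontrivial
homomorphism to the group of integers. -/
def LocallyIndicable (H : Type u) [Group H] : Prop :=
  ∀ K : Subgroup H, K.FG → K ≠ ⊥ → ∃ φ : K →* Multiplicative ℤ, ∃ k, φ k ≠ 1

theorem kerDim_eq {G : Type u} [Group G] (α : G →₀ ℂ) : kerDim α = NH47.AZ.kdim α := rfl

theorem part_eq {G : Type u} (α : G →₀ ℂ) (S : Finset G) : part α S = NH47.AZ.part α S := rfl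

theorem regular_iff {G : Type u} [Group G] (α : G →₀ ℂ) : Regular α ↔ kerDim α ≤ 0 := by
  rw [kerDim_eq, ← NH47.AZ.injective_iff_kdim]
  exact W649.ZL.regular_iff α

theorem one {G : Type u} [Group G] (α : G →₀ ℂ) (h : α ≠ 0) :
    ∃ S ⊆ α.support, ∃ t ∈ S, Finite (Abelianization (quotients S t)) ∧
      kerDim α ≤ kerDim (part α S) := by
  obtain ⟨S, h1, t, h2, h3, h4⟩ := NH47.AZ.descent α _ α.support rfl
    (Finsupp.support_nonempty_iff.2 h)
  refine ⟨S, h1, t, h2, h3, ?_⟩
  rw [NH47.AZ.part_eq] at h4
  exact h4

theorem part_ne_zero {G : Type u} [Group G] (α : G →₀ ℂ) (S : Finset G) (t : G)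
    (hS : S ⊆ α.support) (ht : t ∈ S) : part α S ≠ 0 := by
  intro h
  have h1 := NH47.AZ.part_apply_mem α S t ht
  rw [← part_eq, h] at h1
  exact (Finsupp.mem_support_iff.1 (hS ht)) h1.symm

/-- The part, moved to the subgroup generated by the quotients (or to a larger subgroup). -/
theorem move {G : Type u} [Group G] (α : G →₀ ℂ) (S : Finset G) (t : G) (H : Subgroup G)
    (hS : S ⊆ α.support) (ht : t ∈ S) (hH : quotients S t ≤ H) :
    ∃ β : H →₀ ℂ, β ≠ 0 ∧ (∀ h : H, β h = 0 ∨ β h = α (t * h)) ∧
      kerDim (part α S) = kerDim β := by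
  classical
  have hinj : Function.Injective (fun x : G => t⁻¹ * x) := mul_right_injective t⁻¹
  set γ := (NH47.AZ.part α S).mapDomain (fun x => t⁻¹ * x) with hγ
  have hγv : ∀ x, γ x = NH47.AZ.part α S (t * x) := by
    intro x
    have hk : x = (fun x : G => t⁻¹ * x) (t * x) := by simp
    conv_lhs => rw [hk]
    exact Finsupp.mapDomain_apply hinj _ _
  have hK : ∀ x ∈ γ.support, x ∈ H := by
    intro x hx
    apply hH
    have h1 : t * x ∈ S := by
      by_contra hne
      apply Finsupp.mem_support_iff.1 hx
      rw [hγv, NH47.AZ.part_apply_not α S _ hne]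
    have h2 := NH47.AZ.mem_quo S t _ h1
    rw [inv_mul_cancel_left] at h2
    exact h2
  refine ⟨NH47.AZ.res H γ, ?_, ?_, ?_⟩
  · intro h0
    have h1 : NH47.AZ.res H γ 1 = 0 := by rw [h0]; rfl
    rw [NH47.AZ.res_apply, hγv] at h1
    have h2 : t * ((1 : H) : G) = t := by simp
    rw [h2, NH47.AZ.part_apply_mem α S t ht] at h1
    exact (Finsupp.mem_support_iff.1 (hS ht)) h1
  · intro h
    rw [NH47.AZ.res_apply, hγv]
    by_cases h1 : t * (h : G) ∈ S
    · right; exact NH47.AZ.part_apply_mem α S _ h1
    · left; exact NH47.AZ.part_apply_not α S _ h1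
  · rw [kerDim_eq, kerDim_eq, ← NH47.AZ.kdim_subgroup H γ hK, hγ, NH47.AZ.kdim_translate,
      part_eq]

theorem two {G : Type u} [Group G] (δ : ℝ)
    (h : ∀ H : Subgroup G, H.FG → Finite (Abelianization H) → ∀ β : H →₀ ℂ, β ≠ 0 →
      kerDim β ≤ δ) (α : G →₀ ℂ) (hα : α ≠ 0) : kerDim α ≤ δ := by
  obtain ⟨S, h1, t, h2, h3, h4⟩ := one α hα
  obtain ⟨β, hβ, -, h5⟩ := move α S t (quotients S t) h1 h2 le_rfl
  rw [h5] at h4
  exact h4.trans (h _ (NH47.AZ.quo_fg S t) h3 β hβ)

theorem two' {G : Type u} [Group G]
    (h : ∀ H : Subgroup G, H.FG → Finite (Abelianization H) → ZeroDivisorProperty H) :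
    ZeroDivisorProperty G := by
  intro α hα
  rw [regular_iff]
  exact two 0 (fun H hH hfin β hβ => (regular_iff β).1 (h H hH hfin β hβ)) α hα

/-- a finitely generated subgroup with finite abelianization dies in a locally indicable quotient -/
theorem le_of_finite {G : Type u} [Group G] (N : Subgroup G) [N.Normal]
    (hN : LocallyIndicable (G ⧸ N)) (H : Subgroup G) (hH : H.FG)
    (hfin : Finite (Abelianization H)) : H ≤ N := by
  classical
  let K : Subgroup (G ⧸ N) := H.map (QuotientGroup.mk' N)
  have hK : K.FG := by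
    obtain ⟨S, hS⟩ := hH
    exact ⟨S.image (QuotientGroup.mk' N), by rw [Finset.coe_image, ← MonoidHom.map_closure, hS]⟩
  by_cases hbot : K = ⊥
  · intro x hx
    have h1 : QuotientGroup.mk' N x ∈ K := ⟨x, hx, rfl⟩
    rw [hbot, Subgroup.mem_bot] at h1
    exact (QuotientGroup.eq_one_iff x).1 h1
  · exfalso
    obtain ⟨φ, k, hk⟩ := hN K hK hbot
    obtain ⟨x, hx, hxk⟩ := k.2
    let ψ : H →* Multiplicative ℤ := φ.comp ((QuotientGroup.mk' N).subgroupMap H)
    have hψ : ψ ⟨x, hx⟩ ≠ 1 := by
      intro h
      apply hk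
      rw [← h]
      change φ k = φ _
      congr 1
      exact Subtype.ext hxk.symm
    let θ : Abelianization H →* Multiplicative ℤ := Abelianization.lift ψ
    have h1 : IsOfFinOrder (Abelianization.of (⟨x, hx⟩ : H)) := isOfFinOrder_of_finite _
    obtain ⟨n, hn, h2⟩ := isOfFinOrder_iff_pow_eq_one.1 h1
    have h3 : ψ ⟨x, hx⟩ ^ n = 1 := by
      have h4 := congrArg θ h2
      rw [map_pow, map_one] at h4
      exact h4
    apply hψ
    have h5 : (n : ℤ) * Multiplicative.toAdd (ψ ⟨x, hx⟩) = 0 := by
      have h6 := congrArg Multiplicative.toAdd h3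
      rw [toAdd_pow, toAdd_one, nsmul_eq_mul] at h6
      exact h6
    have h7 : Multiplicative.toAdd (ψ ⟨x, hx⟩) = 0 := by
      rcases mul_eq_zero.1 h5 with h | h
      · omega
      · exact h
    exact Multiplicative.toAdd.injective h7

theorem three {G : Type u} [Group G] (N : Subgroup G) [N.Normal]
    (hN : LocallyIndicable (G ⧸ N)) (α : G →₀ ℂ) (hα : α ≠ 0) :
    ∃ t ∈ α.support, ∃ β : N →₀ ℂ, β ≠ 0 ∧ (∀ n : N, β n = 0 ∨ β n = α (t * n)) ∧
      kerDim α ≤ kerDim β := by
  obtain ⟨S, h1, t, h2, h3, h4⟩ := one α hα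
  obtain ⟨β, hβ, h5, h6⟩ := move α S t N h1 h2 (le_of_finite N hN _ (NH47.AZ.quo_fg S t) h3)
  exact ⟨t, h1 h2, β, hβ, h5, by rw [← h6]; exact h4⟩

theorem three' {G : Type u} [Group G] (N : Subgroup G) [N.Normal]
    (hN : LocallyIndicable (G ⧸ N)) (h : ZeroDivisorProperty N) : ZeroDivisorProperty G := by
  intro α hα
  obtain ⟨t, -, β, hβ, -, h1⟩ := three N hN α hα
  rw [regular_iff]
  exact h1.trans ((regular_iff β).1 (h β hβ))

theorem TorsionFree.subgroup {G : Type u} [Group G] (h : TorsionFree G) (H : Subgroup G) :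
    TorsionFree H := by
  intro g n hn hg
  apply Subtype.ext
  exact h g n hn (by have := congrArg Subtype.val hg; simpa using this)

theorem five {G : Type u} [Group G] (hG : TorsionFree G) (α : G →₀ ℂ) (hα : α ≠ 0)
    (hr : ¬ Regular α) :
    ∃ S ⊆ α.support, 3 ≤ S.card ∧ ∃ t ∈ S, Finite (Abelianization (quotients S t)) ∧
      ¬ Regular (part α S) := by
  classical
  obtain ⟨S, h1, t, h2, h3, h4⟩ := one α hα
  have h5 : ¬ Regular (part α S) := by
    intro h
    apply hr
    rw [regular_iff]
    exact h4.trans ((regular_iff _).1 h)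
  refine ⟨S, h1, ?_, t, h2, h3, h5⟩
  by_contra hcard
  push Not at hcard
  -- the quotient group is cyclic
  obtain ⟨x, hx⟩ : ∃ x : G, quotients S t ≤ Subgroup.zpowers x := by
    by_cases hS : ∃ s ∈ S, s ≠ t
    · obtain ⟨s, hs, hst⟩ := hS
      refine ⟨t⁻¹ * s, ?_⟩
      have h6 : S = {t, s} := by
        symm
        apply Finset.eq_of_subset_of_card_le
        · intro y hy
          rw [Finset.mem_insert, Finset.mem_singleton] at hy
          rcases hy with rfl | rfl
          · exact h2
          · exact hs
        · rw [Finset.card_pair (Ne.symm hst)]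
          omega
      unfold quotients
      rw [Subgroup.closure_le]
      rintro y ⟨z, hz, rfl⟩
      rw [h6, Finset.coe_insert, Finset.coe_singleton] at hz
      rcases hz with rfl | hz
      · change z⁻¹ * z ∈ _
        rw [inv_mul_cancel]
        exact Subgroup.one_mem _
      · rw [Set.mem_singleton_iff] at hz
        rw [hz]
        exact Subgroup.mem_zpowers _
    · push Not at hS
      refine ⟨1, ?_⟩
      unfold quotients
      rw [Subgroup.closure_le]
      rintro y ⟨z, hz, rfl⟩
      change t⁻¹ * z ∈ _
      rw [hS z hz, inv_mul_cancel]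
      exact Subgroup.one_mem _
  have hcomm : ∀ a b : quotients S t, a * b = b * a := by
    intro a b
    obtain ⟨m, hm⟩ := hx a.2
    obtain ⟨n, hn⟩ := hx b.2
    apply Subtype.ext
    change (a : G) * b = b * a
    simp only at hm hn
    rw [← hm, ← hn, ← zpow_add, ← zpow_add, add_comm]
  have hker : commutator (quotients S t) = ⊥ := by
    rw [commutator_def, Subgroup.commutator_eq_bot_iff_le_centralizer]
    intro a _
    rw [Subgroup.mem_centralizer_iff]
    intro b _
    exact hcomm b a
  have hinj : Function.Injective (Abelianization.of (G := quotients S t)) := by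
    rw [← MonoidHom.ker_eq_bot_iff, Abelianization.ker_of, hker]
  have hfin : Finite (quotients S t) := Finite.of_injective _ hinj
  have htriv : ∀ y ∈ quotients S t, y = 1 := by
    intro y hy
    have h6 : IsOfFinOrder (⟨y, hy⟩ : quotients S t) := isOfFinOrder_of_finite _
    obtain ⟨n, hn, h7⟩ := isOfFinOrder_iff_pow_eq_one.1 h6
    exact hG y n hn (by have := congrArg Subtype.val h7; simpa using this)
  have hone : ∀ s ∈ S, s = t := by
    intro s hs
    have := htriv _ (NH47.AZ.mem_quo S t s hs)
    rw [inv_mul_eq_one] at this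
    exact this.symm
  apply h5
  have h8 : part α S = Finsupp.single t (α t) := by
    ext x
    rw [part_eq]
    by_cases hx : x ∈ S
    · rw [NH47.AZ.part_apply_mem _ _ _ hx, hone x hx, Finsupp.single_eq_same]
    · rw [NH47.AZ.part_apply_not _ _ _ hx, Finsupp.single_apply, if_neg]
      rintro rfl
      exact hx h2
  rw [h8]
  refine (W649.ZL.regular_iff _).2 ?_
  rw [W649.ZL.cop_single]
  intro f g hfg
  apply W649.ZL.Ltr_injective t
  exact smul_right_injective _ (Finsupp.mem_support_iff.1 (h1 h2)) hfg

/-- **Reduction to finite abelianizations.** Let `G` be any group.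

1. For every nonzero `α` in the complex group algebra there are a subset `S` of the support and an
   element `t` of `S` such that the subgroup generated by the quotients `t⁻¹ s`, `s ∈ S`, has finite
   abelianization and the kernel dimension of `α` is at most that of its part on `S`. If `G` is
   torsion-free and `α` is not regular, then `S` can be chosen such that it has at least three
   elements and the part of `α` on `S` is not regular.
2. If `δ` bounds the kernel dimensions of all nonzero elements of the group algebras of all finitely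
   generated subgroups of `G` with finite abelianization, then it bounds those for `G`. In
   particular `G` has the analytic zero divisor property if all finitely generated subgroups with
   finite abelianization have it.
3. Let `N` be a normal subgroup such that `G ⧸ N` is locally indicable. For every nonzero `α` there
   are `t` in its support and a nonzero element `β` of the group algebra of `N`, a translate of a
   part of `α`, whose kernel dimension is at least that of `α`. In particular, if `N` has the
   analytic zero divisor property, so has `G`.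
4. The analytic zero divisor conjecture holds for all torsion-free groups if and only if it holds for
   all finitely generated torsion-free groups with finite abelianization. -/
theorem result :
    (∀ (G : Type u) [Group G] (α : G →₀ ℂ), α ≠ 0 →
      (∃ S ⊆ α.support, ∃ t ∈ S, Finite (Abelianization (quotients S t)) ∧
        kerDim α ≤ kerDim (part α S)) ∧
      (TorsionFree G → ¬ Regular α → ∃ S ⊆ α.support, 3 ≤ S.card ∧ ∃ t ∈ S,
        Finite (Abelianization (quotients S t)) ∧ ¬ Regular (part α S))) ∧
    (∀ (G : Type u) [Group G],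
      (∀ δ : ℝ, (∀ H : Subgroup G, H.FG → Finite (Abelianization H) → ∀ β : H →₀ ℂ, β ≠ 0 →
        kerDim β ≤ δ) → ∀ α : G →₀ ℂ, α ≠ 0 → kerDim α ≤ δ) ∧
      ((∀ H : Subgroup G, H.FG → Finite (Abelianization H) → ZeroDivisorProperty H) →
        ZeroDivisorProperty G)) ∧
    (∀ (G : Type u) [Group G] (N : Subgroup G) [N.Normal], LocallyIndicable (G ⧸ N) →
      (∀ α : G →₀ ℂ, α ≠ 0 → ∃ t ∈ α.support, ∃ β : N →₀ ℂ, β ≠ 0 ∧
        (∀ n : N, β n = 0 ∨ β n = α (t * n)) ∧ kerDim α ≤ kerDim β) ∧
      (ZeroDivisorProperty N → ZeroDivisorProperty G)) ∧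
    ((∀ (G : Type u) [Group G], TorsionFree G → ZeroDivisorProperty G) ↔
      (∀ (G : Type u) [Group G], TorsionFree G → Group.FG G → Finite (Abelianization G) →
        ZeroDivisorProperty G)) := by
  refine ⟨fun G _ α hα => ⟨one α hα, fun hG hr => five hG α hα hr⟩,
    fun G _ => ⟨fun δ h α hα => two δ h α hα, fun h => two' h⟩,
    fun G _ N _ hN => ⟨fun α hα => three N hN α hα, fun h => three' N hN h⟩, ?_⟩
  constructor
  · intro h G _ hG _ _
    exact h G hG
  · intro h G _ hG
    apply two'
    intro H hH hfin
    exact h H (hG.subgroup H) ((Group.fg_iff_subgroup_fg H).2 hH) hfin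

end Pool.Agent.Results.MP_0f25e6_al.FiniteAbelianization
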