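import Pool.Agent.NH98.KB.Exp

/-!
# Kernel dimensions along polynomial curves in the group algebra

Let `A₀, …, A_r` be elements of the complex group algebra of any group `G` and
`A(x) = A₀ + x A₁ + … + x^r A_r`.  The kernel dimensions of the elements `A(x)` satisfy the inequality
of Bézout type `∑_x (dim A(x) - dim A(y)) ≤ r (1 - dim A(y))` for every point `y`, also for the point
at infinity, where `A(y)` is replaced by `A_r`.

Method: for finitely many points `x_1, …, x_n` let `V` be the space of all `(f_1, …, f_n)` such that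
`A(x_j) * f_j = 0` for all `j`.  The moments `M_k = ∑ x_j^k f_j` satisfy `∑ A_i * M_(k+i) = 0`, so
that, if the moments before the one with number `m ≥ r` vanish, this one lies in the kernel of `A_r`;
and all `f_j` vanish if the first `n` moments do.

Application: a character of finite order `n` of the subgroup generated by the quotients of the
support of `α` gives `n` points with the same kernel dimension on a curve through `α`, whose degree is
at most `2 n / q` after a suitable power of the character is taken (simultaneous approximation modulo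
`n`), if the support has `m` elements and `q ^ (m - 1) < n`.  So up to a loss of `2 (m - 1) / q` the
kernel dimension comes from a part of `α` for which this subgroup has an abelianization of exponent
at most `q ^ (m - 1)` and order at most `q ^ ((m - 1) ^ 2)`.
-/

set_option autoImplicit false

universe u

namespace Pool.Agent.Results.MP_0f25e6_al.PolynomialCurves

open Pool.Agent.NH98.KB

/-- `α * f` is nonzero for every nonzero square-summable `f`, where
`(α * f)(g) = ∑ α(k) f(k⁻¹ g)`. -/
def Regular {G : Type u} [Group G] (α : G →₀ ℂ) : Prop :=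
  ∀ f : G → ℂ, Memℓp f 2 → f ≠ 0 → ∃ g : G, ∑ k ∈ α.support, α k * f (k⁻¹ * g) ≠ 0

/-- All square-summable `f` with `α * f = 0`. -/
def kernel {G : Type u} [Group G] (α : G →₀ ℂ) : Set (lp (fun _ : G => ℂ) 2) :=
  {f | ∀ g : G, ∑ k ∈ α.support, α k * f (k⁻¹ * g) = 0}

open Classical in
/-- The von Neumann dimension of the kernel of left convolution by `α`: one minus the square of the
distance from the basis vector at the identity of `G` to the kernel (this is the squared length of
the projection of that vector to the kernel). -/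
noncomputable def kerDim {G : Type u} [Group G] (α : G →₀ ℂ) : ℝ :=
  1 - Metric.infDist (lp.single 2 (1 : G) (1 : ℂ)) (kernel α) ^ 2

/-- The element `A 0 + x A 1 + ⋯ + x ^ r A r`. -/
noncomputable def curve {G : Type u} (A : ℕ → (G →₀ ℂ)) (r : ℕ) (x : ℂ) : G →₀ ℂ :=
  ∑ i ∈ Finset.range (r + 1), x ^ i • A i

/-- The element with the coefficients `a t`, `t ∈ T`. -/
noncomputable def element {G : Type u} (T : Finset G) (a : T → ℂ) : G →₀ ℂ :=
  ∑ t : T, Finsupp.single (t : G) (a t)

theorem kerDim_eq {G : Type u} [Group G] (α : G →₀ ℂ) : kerDim α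
    = W649.ZL.vd (LinearMap.ker
      (W649.ZL.cop α : W649.ZL.EE G Unit →ₗ[ℂ] W649.ZL.EE G Unit)) :=
  W649.ZL.kerDim_eq_vd α

theorem regular_iff {G : Type u} [Group G] (α : G →₀ ℂ) : Regular α ↔ kerDim α ≤ 0 :=
  NH47.AZ.regular_iff_kdim α

theorem kerDim_nonneg {G : Type u} [Group G] (α : G →₀ ℂ) : 0 ≤ kerDim α := by
  rw [kerDim_eq]
  exact W649.ZL.vd_nonneg _

theorem kerDim_le_one {G : Type u} [Group G] (α : G →₀ ℂ) : kerDim α ≤ 1 := by
  rw [kerDim_eq]
  have := W649.ZL.vd_le_card (LinearMap.ker
      (W649.ZL.cop α : W649.ZL.EE G Unit →ₗ[ℂ] W649.ZL.EE G Unit))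
  simpa using this

open Classical in
/-- The element which has the coefficients of `α` on the finite set `S` and coefficients zero
elsewhere. -/
noncomputable def part {G : Type u} (α : G →₀ ℂ) (S : Finset G) : G →₀ ℂ :=
  α.filter (fun x => x ∈ S)

/-- The subgroup generated by the elements `t⁻¹ s` with `s` in `S`. -/
def quotients {G : Type u} [Group G] (S : Finset G) (t : G) : Subgroup G :=
  Subgroup.closure ((fun s => t⁻¹ * s) '' (S : Set G))

theorem bezout {G : Type u} [Group G] (A : ℕ → (G →₀ ℂ)) (r : ℕ) (y : ℂ) (S : Finset ℂ) :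
    ∑ x ∈ S, (kerDim (curve A r x) - kerDim (curve A r y)) ≤ r * (1 - kerDim (curve A r y)) :=
  bez A r y S

theorem bezout_infty {G : Type u} [Group G] (A : ℕ → (G →₀ ℂ)) (r : ℕ) (S : Finset ℂ) :
    ∑ x ∈ S, (kerDim (curve A r x) - kerDim (A r)) ≤ r * (1 - kerDim (A r)) :=
  bez_infty A r S

theorem part_eq {G : Type u} (α : G →₀ ℂ) (S : Finset G) : part α S = NH47.AZ.part α S := rfl

theorem part_support {G : Type u} [Group G] (α : G →₀ ℂ) : part α α.support = α := by
  ext x
  rw [part_eq]
  by_cases hx : x ∈ α.support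
  · rw [NH47.AZ.part_apply_mem _ _ _ hx]
  · rw [NH47.AZ.part_apply_not _ _ _ hx, Finsupp.notMem_support_iff.1 hx]

theorem order_bound {G : Type u} [Group G] (S : Finset G) (t : G) (ht : t ∈ S) (N m : ℕ)
    (hm : S.card ≤ m) (hN : 0 < N) (hfin : Finite (Abelianization (quotients S t)))
    (he : Monoid.exponent (Abelianization (quotients S t)) ≤ N) :
    Nat.card (Abelianization (quotients S t)) ≤ N ^ (m - 1) := by
  classical
  set T : Finset G := (S.erase t).image (fun s => t⁻¹ * s) with hTdef
  have hT : quotients S t = Subgroup.closure (T : Set G) := by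
    unfold quotients
    apply le_antisymm
    · rw [Subgroup.closure_le]
      rintro _ ⟨s, hs, rfl⟩
      by_cases h : s = t
      · subst h
        simp
      · refine Subgroup.subset_closure ?_
        rw [hTdef, Finset.coe_image]
        exact ⟨s, Finset.mem_coe.2 (Finset.mem_erase.2 ⟨h, Finset.mem_coe.1 hs⟩), rfl⟩
    · apply Subgroup.closure_mono
      rw [hTdef, Finset.coe_image]
      exact Set.image_mono (Finset.coe_subset.2 (Finset.erase_subset _ _))
  have hfg : Group.FG (quotients S t) := by
    rw [hT]
    exact Group.closure_finset_fg T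
  have h1 : Group.rank (quotients S t) ≤ T.card := by
    rw [Subgroup.rank_congr hT]
    exact Subgroup.rank_closure_finset_le_card T
  have h2 : Group.rank (Abelianization (quotients S t)) ≤ Group.rank (quotients S t) :=
    Group.rank_le_of_surjective Abelianization.of (QuotientGroup.mk'_surjective _)
  have h3 : T.card ≤ m - 1 := by
    refine Finset.card_image_le.trans ?_
    rw [Finset.card_erase_of_mem ht]
    omega
  have h4 := Nat.le_of_dvd (pow_pos (Nat.pos_of_ne_zero Monoid.exponent_ne_zero_of_finite) _)
    (card_dvd_exponent_pow_rank (Abelianization (quotients S t)))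
  exact h4.trans ((Nat.pow_le_pow_left he _).trans
    (Nat.pow_le_pow_right hN (h2.trans (h1.trans h3))))

theorem exponent_bound {G : Type u} [Group G] (α : G →₀ ℂ) (hα : α ≠ 0) (q : ℕ) (hq : 0 < q) :
    ∃ S ⊆ α.support, ∃ t ∈ S, Finite (Abelianization (quotients S t)) ∧
      Monoid.exponent (Abelianization (quotients S t)) ≤ q ^ (α.support.card - 1) ∧
      Nat.card (Abelianization (quotients S t)) ≤ q ^ (α.support.card - 1) ^ 2 ∧
      kerDim α ≤ kerDim (part α S) + 2 * (α.support.card - 1 : ℝ) / q := by
  obtain ⟨S, h1, t, h2, h3, h4, h5⟩ := bounded α q α.support.card hq α.support.card α.support rfl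
    le_rfl (Finsupp.support_nonempty_iff.2 hα)
  refine ⟨S, h1, t, h2, h3, h4, ?_, ?_⟩
  · rw [pow_two, pow_mul]
    exact order_bound S t h2 _ _ (Finset.card_le_card h1) (pow_pos hq _) h3 h4
  rw [← part_eq, part_support] at h5
  exact h5

theorem pencil {G : Type u} [Group G] (β : G →₀ ℂ) (s : G) (S : Finset ℂ) :
    ∑ x ∈ S, kerDim (β + Finsupp.single s x) ≤ 1 := by
  have h := bezout_infty (fun i => if i = 0 then β else Finsupp.single s 1) 1 S
  have h1 : kerDim ((fun i => if i = 0 then β else Finsupp.single s 1 : ℕ → (G →₀ ℂ)) 1) = 0 := by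
    apply le_antisymm _ (kerDim_nonneg _)
    rw [← regular_iff]
    refine (W649.ZL.regular_iff _).2 ?_
    simp only [one_ne_zero, if_false]
    rw [W649.ZL.cop_single, one_smul]
    exact W649.ZL.Ltr_injective s
  rw [h1] at h
  have h2 : ∀ x : ℂ, curve (fun i => if i = 0 then β else Finsupp.single s 1 : ℕ → (G →₀ ℂ)) 1 x
      = β + Finsupp.single s x := by
    intro x
    unfold curve
    rw [Finset.sum_range_succ, Finset.sum_range_succ, Finset.sum_range_zero]
    simp
  simp only [h2] at h
  simpa using h

open Classical in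
theorem average {G : Type u} [Group G] (T : Finset G) (hT : T.Nonempty) (S : Finset ℂ) :
    S.card * ∑ a ∈ Fintype.piFinset (fun _ : T => S), kerDim (element T a)
      ≤ (Fintype.piFinset (fun _ : T => S)).card := by
  obtain ⟨s0, hs0⟩ := hT
  set s : T := ⟨s0, hs0⟩ with hs
  set Q := Fintype.piFinset (fun _ : T => S) with hQ
  have h1 : ∑ p ∈ Q ×ˢ S, kerDim (element T (Function.update p.1 s p.2))
      = ∑ p ∈ Q ×ˢ S, kerDim (element T p.1) := by
    refine Finset.sum_nbij' (fun p => (Function.update p.1 s p.2, p.1 s))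
      (fun p => (Function.update p.1 s p.2, p.1 s)) ?_ ?_ ?_ ?_ ?_
    · rintro ⟨a, y⟩ hp
      rw [Finset.mem_product, Fintype.mem_piFinset] at hp ⊢
      refine ⟨fun t => ?_, hp.1 s⟩
      by_cases ht : t = s
      · subst ht; simpa using hp.2
      · simpa [Function.update_of_ne ht] using hp.1 t
    · rintro ⟨a, y⟩ hp
      rw [Finset.mem_product, Fintype.mem_piFinset] at hp ⊢
      refine ⟨fun t => ?_, hp.1 s⟩
      by_cases ht : t = s
      · subst ht; simpa using hp.2
      · simpa [Function.update_of_ne ht] using hp.1 t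
    · rintro ⟨a, y⟩ _
      simp
    · rintro ⟨a, y⟩ _
      simp
    · rintro ⟨a, y⟩ _
      rfl
  rw [Finset.sum_product, Finset.sum_product] at h1
  have h2 : ∑ a ∈ Q, ∑ _y ∈ S, kerDim (element T a) = S.card * ∑ a ∈ Q, kerDim (element T a) := by
    rw [Finset.mul_sum]
    exact Finset.sum_congr rfl fun a _ => by rw [Finset.sum_const, nsmul_eq_mul]
  simp only at h1
  rw [h2] at h1
  rw [← h1]
  have h3 : ∀ a ∈ Q, ∑ y ∈ S, kerDim (element T (Function.update a s y)) ≤ 1 := by
    intro a _
    have h4 := pencil (∑ t ∈ Finset.univ.erase s, Finsupp.single (t : G) (a t)) (s : G) S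
    refine le_trans (le_of_eq ?_) h4
    refine Finset.sum_congr rfl fun y _ => ?_
    congr 1
    unfold element
    rw [← Finset.add_sum_erase _ _ (Finset.mem_univ s), Function.update_self, add_comm]
    congr 1
    refine Finset.sum_congr rfl fun t ht => ?_
    rw [Function.update_of_ne (Finset.ne_of_mem_erase ht)]
  calc _ ≤ ∑ a ∈ Q, (1 : ℝ) := Finset.sum_le_sum h3
    _ = _ := by simp

open Classical in
/-- **Kernel dimensions along polynomial curves.** Let `G` be any group.

1. Let `A 0, …, A r` be elements of the complex group algebra. For all complex numbers `y` and all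
   finite sets `S` of complex numbers the sum over `x ∈ S` of `kerDim (A(x)) - kerDim (A(y))` is at
   most `r (1 - kerDim (A(y)))`, where `A(x) = A 0 + x A 1 + ⋯ + x ^ r A r`; and the same is true with
   `A r` in place of `A(y)`.
2. (Characters.) Let `α` be in the group algebra, `t ∈ G`, and `P` a subgroup that contains all
   `t⁻¹ s`, `s` in the support of `α`; let `χ` be a homomorphism from `P` to the nonzero complex
   numbers with `χ(t⁻¹ s) = ζ ^ e(s)`, `0 ≤ e(s) ≤ r`, for these `s`, where `1, ζ, …, ζ ^ (n - 1)` are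
   different. Then `n (kerDim α - kerDim β) ≤ r (1 - kerDim β)` for every `β` of the form
   `β(s) = x ^ e(s) α(s)`, `x` a complex number.
3. (Bounded abelianization.) Let `α ≠ 0` have `m` elements in its support, and let `q ≥ 1`.
   There are a subset `S` of the support and `t ∈ S` such that the subgroup generated by the quotients
   `t⁻¹ s`, `s ∈ S`, has a finite abelianization, of exponent at most `q ^ (m - 1)` and of order at
   most `q ^ ((m - 1) ^ 2)`, and such that `kerDim α` is at most the kernel dimension of the part of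
   `α` on `S` plus `2 (m - 1) / q`.
4. (Random coefficients.) For every nonempty finite subset `T` of `G` and every nonempty finite set
   `S` of complex numbers the average of the kernel dimensions of the elements with support in `T`
   and coefficients in `S` is at most `1 / |S|`. -/
theorem result {G : Type u} [Group G] :
    (∀ (A : ℕ → (G →₀ ℂ)) (r : ℕ) (S : Finset ℂ),
      (∀ y : ℂ, ∑ x ∈ S, (kerDim (curve A r x) - kerDim (curve A r y)) ≤
        r * (1 - kerDim (curve A r y))) ∧
      ∑ x ∈ S, (kerDim (curve A r x) - kerDim (A r)) ≤ r * (1 - kerDim (A r))) ∧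
    (∀ (α : G →₀ ℂ) (t : G) (P : Subgroup G) (hP : ∀ s ∈ α.support, t⁻¹ * s ∈ P)
      (χ : P →* ℂˣ) (ζ : ℂ) (e : G → ℕ) (r n : ℕ),
      (∀ s (hs : s ∈ α.support), e s ≤ r ∧ (χ ⟨t⁻¹ * s, hP s hs⟩ : ℂ) = ζ ^ e s) →
      (∀ i < n, ∀ j < n, ζ ^ i = ζ ^ j → i = j) →
      ∀ (x : ℂ) (β : G →₀ ℂ), (∀ s, β s = x ^ e s * α s) →
      n * (kerDim α - kerDim β) ≤ r * (1 - kerDim β)) ∧
    (∀ (α : G →₀ ℂ), α ≠ 0 → ∀ q : ℕ, 0 < q →
      ∃ S ⊆ α.support, ∃ t ∈ S, Finite (Abelianization (quotients S t)) ∧
        Monoid.exponent (Abelianization (quotients S t)) ≤ q ^ (α.support.card - 1) ∧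
        Nat.card (Abelianization (quotients S t)) ≤ q ^ (α.support.card - 1) ^ 2 ∧
        kerDim α ≤ kerDim (part α S) + 2 * (α.support.card - 1 : ℝ) / q) ∧
    (∀ (T : Finset G) (S : Finset ℂ), T.Nonempty → S.Nonempty →
      (∑ a ∈ Fintype.piFinset (fun _ : T => S), kerDim (element T a)) /
        (Fintype.piFinset (fun _ : T => S)).card ≤ 1 / S.card) := by
  classical
  refine ⟨fun A r S => ⟨fun y => bezout A r y S, bezout_infty A r S⟩,
    fun α t P hP χ ζ e r n he hζ x β hβ => chars α t P hP χ ζ e r n he hζ x β hβ,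
    fun α hα q hq => exponent_bound α hα q hq, ?_⟩
  intro T S hT hS
  have h := average T hT S
  have h1 : (0 : ℝ) < S.card := by exact_mod_cast Finset.card_pos.2 hS
  have h2 : (0 : ℝ) < (Fintype.piFinset (fun _ : T => S)).card := by
    have : (Fintype.piFinset (fun _ : T => S)).Nonempty := by
      rw [Fintype.piFinset_nonempty]
      exact fun _ => hS
    exact_mod_cast Finset.card_pos.2 this
  rw [div_le_div_iff₀ h2 h1, one_mul, mul_comm]
  exact_mod_cast h

end Pool.Agent.Results.MP_0f25e6_al.PolynomialCurves
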